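import Pool.Agent.Results.MP_18a8a6_lc.AlmostAllPrimes
import Pool.Agent.Q21.DW.Cnt

/-!
# Primitive roots for every prime among the blocks of digits of almost every real number

For every `ε > 0` and `B` one polynomial-time computable list `F p` works for all primes `p` which are
written by `k` consecutive digits of `α` (in any base `g`, after one of the first `g ^ (κ k)` places,
`κ < 1 - ε`), for almost every real `α` and all large `k`; and for all primes in windows around the
dilates `α v_k`.
-/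

set_option autoImplicit false

namespace Pool.Agent.Results.MP_18a8a6_lc.DigitBlocks

open Finset

/-- `F` is computable in polynomial time: some function on bit strings computed by a Turing machine
(Mathlib's `TM2ComputableInPolyTime`) in polynomially many steps sends the binary digits of `p` to
the code of the list `F p`. -/
def PolyTimeList (F : ℕ → List ℕ) : Prop :=
  ∃ f : List Bool → List Bool, NPC.PolyTime f ∧ ∀ p : ℕ, f (Nat.bits p) = NPC.bits (F p)

/-- `g` is a primitive root modulo `p` -/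
def IsPrimRoot (p g : ℕ) : Prop := orderOf (g : ZMod p) = p - 1

open Classical in
/-- all but a fraction `(size p) ^ (-B)` of the entries of the list `F p` are primitive roots modulo
`p` -/
def MostlyPrimRoots (F : ℕ → List ℕ) (B p : ℕ) : Prop :=
  p.size ^ B * #{i ∈ range (F p).length | ¬ IsPrimRoot p ((F p).getD i 0)} ≤ (F p).length

/-- **Theorem.** For every `0 < ε < 1` and every `B` there are `C` and a polynomial-time computable
list `F p` of `n ^ C` numbers, `n` the number of binary digits of `p`, such that in the sense of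
`RandomReals ε` (digits and dilates of almost all real numbers `α`, with Hausdorff dimensions) for
every prime `p` all but a fraction `n ^ (-B)` of the entries of `F p` are primitive roots modulo `p`. -/
theorem result (ε : ℝ) (hε : 0 < ε) (hε1 : ε < 1) (B : ℕ) :
    ∃ (C : ℕ) (F : ℕ → List ℕ), PolyTimeList F ∧ (∀ p : ℕ, (F p).length = p.size ^ C) ∧
      Pool.Agent.Q21.DW.RandomReals ε
        (fun (_ : Unit) (p : ℕ) => p.Prime → MostlyPrimRoots F B p) := by
  classical
  obtain ⟨C, F, hF, hlen, x₀, h⟩ := AlmostAllPrimes.result ε hε B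
  refine ⟨C, F, hF, hlen, ?_⟩
  refine Pool.Agent.Q21.DW.randomReals_of
    (B := fun _ p => p.Prime ∧ ¬ MostlyPrimRoots F B p) hε.le hε1 (fun _ => ?_)
    (fun _ p _ h2 h3 => not_not.1 fun h4 => h2 ⟨h3, h4⟩)
  refine Pool.Agent.Q21.DW.ps_of
    (fun X : ℕ => {p : ℕ | p ≤ X ∧ p.Prime ∧ ¬ MostlyPrimRoots F B p}) id _ _ ?_ ?_
  · intro δ hδ
    refine ⟨1 + x₀, fun X hX => ?_⟩
    have hX1 : (1 : ℝ) ≤ X := by exact_mod_cast hX
    have hfin : {p : ℕ | p ≤ X ∧ p.Prime ∧ ¬ MostlyPrimRoots F B p}.Finite :=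
      (Set.finite_Iic X).subset fun p hp => hp.1
    refine ⟨hfin, ?_⟩
    have h1 : ∀ Y : ℕ, x₀ ≤ Y →
        ({p : ℕ | p ≤ Y ∧ p.Prime ∧ ¬ MostlyPrimRoots F B p}.ncard : ℝ) ≤ (Y : ℝ) ^ ε := by
      intro Y hY
      refine le_trans (Nat.cast_le.2 ?_) (h Y hY)
      rw [← Set.ncard_coe_finset]
      refine Set.ncard_le_ncard ?_ (Finset.finite_toSet _)
      rintro p ⟨h2, h3, h4⟩
      rw [mem_coe, mem_filter, mem_range]
      exact ⟨by omega, h3, h4⟩
    have h5 : (X : ℝ) ^ ε ≤ (X : ℝ) ^ (ε + δ) :=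
      Real.rpow_le_rpow_of_exponent_le hX1 (by linarith)
    have h6 : (1 : ℝ) ≤ (X : ℝ) ^ (ε + δ) := Real.one_le_rpow hX1 (by positivity)
    have hx0 : (0 : ℝ) ≤ x₀ := Nat.cast_nonneg _
    rcases le_total x₀ X with hx | hx
    · have h7 := h1 X hx
      nlinarith
    · have h7 : {p : ℕ | p ≤ X ∧ p.Prime ∧ ¬ MostlyPrimRoots F B p}.ncard ≤ x₀ := by
        have h8 : {p : ℕ | p ≤ X ∧ p.Prime ∧ ¬ MostlyPrimRoots F B p} ⊆
            ((Finset.Icc 1 X : Finset ℕ) : Set ℕ) := by
          rintro p ⟨h2, h3, -⟩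
          rw [coe_Icc]
          exact ⟨h3.one_lt.le, h2⟩
        have h9 := Set.ncard_le_ncard h8 (Finset.finite_toSet _)
        rw [Set.ncard_coe_finset, Nat.card_Icc] at h9
        omega
      have h8 : ({p : ℕ | p ≤ X ∧ p.Prime ∧ ¬ MostlyPrimRoots F B p}.ncard : ℝ) ≤ x₀ := by
        exact_mod_cast h7
      nlinarith
  · intro n N _ hnN hB
    exact ⟨n, ⟨hnN, hB⟩, rfl⟩

end Pool.Agent.Results.MP_18a8a6_lc.DigitBlocks
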