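import Pool.Agent.H595R2.PR.Core
import Pool.Agent.H595R2.PR.FEW
import Pool.Agent.Q21.DW.Cnt

/-!
# Primitive roots modulo EVERY prime written by digits of a random real number

For every `ε > 0` and `B` there are `C` and one polynomial-time computable list `F p` of `(size p) ^ C` numbers such
that, for almost every real number `α`, all bases `g`, all `t < 1 - ε` and all large `k`: for EVERY prime `p` which
is written by `k` consecutive digits of `α` in base `g`, beginning after any position `j ≤ g ^ (t k)`, all but a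
fraction `(size p) ^ (-B)` of the entries of `F p` are primitive roots modulo `p`; the `α` for which this fails with
`j ≤ η k` form a set of Hausdorff dimension at most `(ε + η) / (1 + η)`.
-/

set_option autoImplicit false

namespace Pool.Agent.Results.MP_18a8a6_lc.DigitWindows

open Finset MeasureTheory Filter

/-- `F` is computable in polynomial time: some function on bit strings computed by a Turing machine
(Mathlib's `TM2ComputableInPolyTime`) in polynomially many steps sends the binary digits of `p` to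
the code of the list `F p`. -/
def PolyTimeList (F : ℕ → List ℕ) : Prop :=
  ∃ f : List Bool → List Bool, NPC.PolyTime f ∧ ∀ p : ℕ, f (Nat.bits p) = NPC.bits (F p)

/-- `g` is a primitive root modulo `p` -/
def IsPrimRoot (p g : ℕ) : Prop := orderOf (g : ZMod p) = p - 1

open Classical in
/-- all but a fraction `(size p) ^ (-B)` of the entries of the list `F p` are primitive roots modulo `p` -/
def MostlyPrimRoots (F : ℕ → List ℕ) (B p : ℕ) : Prop :=
  p.size ^ B * #{i ∈ range (F p).length | ¬ IsPrimRoot p ((F p).getD i 0)} ≤ (F p).length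

/-- the number written by the `k` digits number `j + 1, …, j + k` after the point of `α` in base `g` -/
noncomputable def window (g j k : ℕ) (α : ℝ) : ℕ := (⌊(g : ℝ) ^ (j + k) * α⌋ % (g : ℤ) ^ k).toNat

section aux

open H595R2.PR Topology

theorem prim_of_gen {A C p a : ℕ} (hp : p.Prime) (h : Gen A C p a) (ht : Gam p (p.size ^ A) = ⊤) :
    IsPrimRoot p ((cands A C p).getD a 0) := by
  have : Fact p.Prime := ⟨hp⟩
  obtain ⟨u, hu1, hu2⟩ := h
  unfold IsPrimRoot
  rw [← hu1, orderOf_units, ← Nat.card_zpowers, hu2, ht, Subgroup.card_top,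
    Nat.card_eq_fintype_card, ZMod.card_units]

theorem few (ε : ℝ) (hε : 0 < ε) (B : ℕ) :
    ∃ (C : ℕ) (F : ℕ → List ℕ), PolyTimeList F ∧ (∀ p : ℕ, (F p).length = p.size ^ C) ∧
      Pool.Agent.Q21.DW.PS ε (fun p => p.Prime ∧ ¬ MostlyPrimRoots F B p) := by
  classical
  obtain ⟨A, hA⟩ := H595R2.PR.Gam_top ε hε
  obtain ⟨x₁, hx₁⟩ := hA A le_rfl
  obtain ⟨p₀, hp₀⟩ := H595R2.PR.core A (A + B + 2)
  set F := H595R2.PR.cands A (A + B + 2) with hF
  have hlen : ∀ p : ℕ, (F p).length = p.size ^ (A + B + 2) := fun p => by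
    simp [hF, H595R2.PR.cands]
  have hmain : ∀ p : ℕ, p₀ ≤ p → p.Prime → H595R2.PR.Gam p (p.size ^ A) = ⊤ →
      MostlyPrimRoots F B p := by
    intro p hp hpp ht
    have h0 : #{i ∈ range (p.size ^ (A + B + 2)) | ¬ IsPrimRoot p ((F p).getD i 0)} ≤
        p.size ^ (A + 1) := by
      refine le_trans (card_le_card ?_) ((hp₀ p hp hpp).trans (by rw [pow_succ]))
      intro i hi
      obtain ⟨h1, h2⟩ := mem_filter.1 hi
      exact mem_filter.2 ⟨h1, fun hg => h2 (prim_of_gen hpp hg ht)⟩
    unfold MostlyPrimRoots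
    rw [hlen]
    calc p.size ^ B * _ ≤ p.size ^ B * p.size ^ (A + 1) := Nat.mul_le_mul_left _ (by convert h0)
      _ = p.size ^ (A + B + 1) := by ring
      _ ≤ p.size ^ (A + B + 2) := Nat.pow_le_pow_right (Nat.size_pos.2 hpp.pos) (by omega)
  refine ⟨A + B + 2, F, H595R2.PR.polyTime_cands A (A + B + 2), hlen, ?_⟩
  intro t ht
  refine ⟨(x₁ : ℝ) + p₀ + 1, fun X hX => ?_⟩
  have hX1 : (1 : ℝ) ≤ X := by exact_mod_cast hX
  have ht0 : 0 < t := hε.trans ht
  have hXp : (1 : ℝ) ≤ (X : ℝ) ^ t := Real.one_le_rpow hX1 ht0.le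
  have hsub : (Icc 1 X).filter (fun p => p.Prime ∧ ¬ MostlyPrimRoots F B p) ⊆
      range p₀ ∪ (range (X + 1)).filter (fun p => p.Prime ∧
        H595R2.PR.Gam p (p.size ^ A) ≠ ⊤) := by
    intro p hp
    obtain ⟨h1, h2, h3⟩ := mem_filter.1 hp
    rw [mem_union, mem_range]
    by_contra hc
    push Not at hc
    obtain ⟨h4, h5⟩ := hc
    have h6 : H595R2.PR.Gam p (p.size ^ A) = ⊤ := by
      by_contra h7
      exact h5 (mem_filter.2 ⟨mem_range.2 (by have := (mem_Icc.1 h1).2; omega), h2, h7⟩)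
    exact h3 (hmain p h4 h2 h6)
  have h9 := (card_le_card hsub).trans (card_union_le _ _)
  rw [card_range] at h9
  have h10 : (((Icc 1 X).filter (fun p => p.Prime ∧ ¬ MostlyPrimRoots F B p)).card : ℝ) ≤
      p₀ + #((range (X + 1)).filter (fun p => p.Prime ∧
      H595R2.PR.Gam p (p.size ^ A) ≠ ⊤)) := by exact_mod_cast h9
  have h11 : (#((range (X + 1)).filter (fun p => p.Prime ∧
      H595R2.PR.Gam p (p.size ^ A) ≠ ⊤)) : ℝ) ≤ (x₁ : ℝ) + (X : ℝ) ^ t := by
    rcases le_total x₁ X with hx | hx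
    · refine (hx₁ X hx).trans ?_
      have h12 : (X : ℝ) ^ ε ≤ (X : ℝ) ^ t := Real.rpow_le_rpow_of_exponent_le hX1 ht.le
      have h13 : (0 : ℝ) ≤ x₁ := by positivity
      linarith
    · have h12 : (#((range (X + 1)).filter (fun p => p.Prime ∧
          H595R2.PR.Gam p (p.size ^ A) ≠ ⊤)) : ℝ) ≤ X := by
        have h13 : (range (X + 1)).filter (fun p => p.Prime ∧
            H595R2.PR.Gam p (p.size ^ A) ≠ ⊤) ⊆ Ioc 0 X := by
          intro p hp
          obtain ⟨h1, h2, _⟩ := mem_filter.1 hp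
          exact mem_Ioc.2 ⟨h2.pos, by have := mem_range.1 h1; omega⟩
        have h14 := card_le_card h13
        rw [Nat.card_Ioc, Nat.sub_zero] at h14
        exact_mod_cast h14
      have h15 : (X : ℝ) ≤ x₁ := by exact_mod_cast hx
      linarith
  have h16 : (0 : ℝ) ≤ (x₁ : ℝ) + p₀ := by positivity
  have h17 : (0 : ℝ) ≤ ((x₁ : ℝ) + p₀) * ((X : ℝ) ^ t - 1) :=
    mul_nonneg h16 (by linarith)
  have h18 : (x₁ : ℝ) + p₀ + (X : ℝ) ^ t ≤ ((x₁ : ℝ) + p₀ + 1) * (X : ℝ) ^ t := by
    nlinarith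
  refine le_trans ?_ h18
  refine le_trans (le_of_eq ?_) (h10.trans (by linarith))
  congr!

end aux

/-- For every `0 < ε < 1` and every `B` there are `C` and a polynomial-time computable list `F p` of `n ^ C` numbers,
`n` the number of binary digits of `p`, such that: for almost every real `α`, all bases `g ≥ 2`, all `t < 1 - ε` and
all large `k`, for EVERY prime `p` written by the `k` digits number `j + 1, …, j + k` of `α` in base `g` for some
`j ≤ g ^ (t k)`, all but a fraction `n ^ (-B)` of the entries of `F p` are primitive roots modulo `p`; for all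
`η ≥ 0`, the same holds with `j ≤ η k` for all `α` outside a set of Hausdorff dimension at most
`(ε + η) / (1 + η)`. -/
theorem result (ε : ℝ) (hε : 0 < ε) (hε1 : ε < 1) (B : ℕ) :
    ∃ (C : ℕ) (F : ℕ → List ℕ), PolyTimeList F ∧ (∀ p : ℕ, (F p).length = p.size ^ C) ∧
      (∀ᵐ α : ℝ, ∀ g : ℕ, 2 ≤ g → ∀ t : ℝ, t < 1 - ε → ∀ᶠ k : ℕ in atTop, ∀ j : ℕ,
        (j : ℝ) ≤ (g : ℝ) ^ (t * k) → (window g j k α).Prime → MostlyPrimRoots F B (window g j k α)) ∧
      ∀ η : ℝ, 0 ≤ η → dimH {α : ℝ | ¬ ∀ g : ℕ, 2 ≤ g → ∀ᶠ k : ℕ in atTop, ∀ j : ℕ,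
        (j : ℝ) ≤ η * k → (window g j k α).Prime → MostlyPrimRoots F B (window g j k α)} ≤
          ENNReal.ofReal ((ε + η) / (1 + η)) := by
  obtain ⟨C, F, h1, h2, h3⟩ := few ε hε B
  have h4 : Pool.Agent.Q21.DW.RandomReals ε
      (fun (_ : Unit) (p : ℕ) => p.Prime → MostlyPrimRoots F B p) :=
    Pool.Agent.Q21.DW.randomReals_of (B := fun (_ : Unit) (p : ℕ) => p.Prime ∧ ¬ MostlyPrimRoots F B p)
      hε.le hε1 (fun _ => h3) (by
        intro _ n _ hn hp
        by_contra h
        exact hn ⟨hp, h⟩)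
  refine ⟨C, F, h1, h2, ?_, fun η hη => ?_⟩
  · filter_upwards [h4.digits] with α hα
    exact hα ()
  · refine le_trans (dimH_mono ?_) (h4.dim η hη)
    intro α hα hcon
    exact hα (hcon ())

end Pool.Agent.Results.MP_18a8a6_lc.DigitWindows
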