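import Pool.Agent.Results.MP_18a8a6_lc.AlmostAllPrimes
import Pool.Agent.Q44.Appr

/-!
# Primitive roots for all primes given by good rational approximations, from one polynomial-time list

For every `ε > 0` and every `B` there is a polynomial-time computable list `F p` of `n ^ C` numbers, `n` the number of
binary digits of `p`, such that the following holds for almost every real number `α`, and for all irrational `α` outside
a set of Hausdorff dimension at most `(1 + ε) / 2`: for all integers `(u, v) ≠ (0, 0)` and for all but finitely many
convergents `a / b` of the continued fraction of `α`, if `p = |u a + v b|` is a prime number, then all but a fraction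
`n ^ (-B)` of the entries of the list `F p` are primitive roots modulo `p`. The same for approximations of other
qualities, for the points of `ℝ ^ d`, and for the values of polynomials at the denominator and the numerators of
the approximations.
-/

set_option autoImplicit false

namespace Pool.Agent.Results.MP_18a8a6_lc.GoodApproximations

open Finset
open Pool.Agent.Q44.CF (AtApproximations at_of)
open Pool.Agent.Q21.DW (PS)
open Pool.Agent.Results.MP_18a8a6_lc.AlmostAllPrimes (PolyTimeList IsPrimRoot)

open Classical in
/-- if `p` is prime, then all but a fraction `n ^ (-B)` of the entries of the list `F p` are primitive roots modulo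
`p`, where `n = size p` is the number of the binary digits of `p` -/
def MostlyPrimRoots (F : ℕ → List ℕ) (B p : ℕ) : Prop :=
  p.Prime → p.size ^ B * #{i ∈ range (F p).length | ¬ IsPrimRoot p ((F p).getD i 0)} ≤ (F p).length

/-- the exceptions -/
def Bad (F : ℕ → List ℕ) (B p : ℕ) : Prop := ¬ MostlyPrimRoots F B p

open Classical in
lemma ps_list {ε : ℝ} (hε : 0 < ε) {B : ℕ} {F : ℕ → List ℕ} {x₀ : ℕ} (h3 : ∀ x : ℕ, x₀ ≤ x →
    (#{p ∈ range (x + 1) | p.Prime ∧ ¬ p.size ^ B *
      #{i ∈ range (F p).length | ¬ IsPrimRoot p ((F p).getD i 0)} ≤ (F p).length} : ℝ) ≤ (x : ℝ) ^ ε) :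
    PS ε (Bad F B) := by
  intro t ht
  refine ⟨x₀ + 1, fun N hN => ?_⟩
  have hN1 : (1 : ℝ) ≤ N := by exact_mod_cast hN
  have hp1 : (1 : ℝ) ≤ (N : ℝ) ^ t := Real.one_le_rpow hN1 (by linarith)
  have hx0 : (0 : ℝ) ≤ x₀ := Nat.cast_nonneg _
  by_cases hx : x₀ ≤ N
  · have h4 := h3 N hx
    have h5 : (((Icc 1 N).filter (Bad F B)).card : ℝ) ≤ (N : ℝ) ^ ε := by
      refine le_trans ?_ h4
      apply Nat.cast_le.2
      refine Pool.Agent.Q21.DW.card_mono ?_
      intro m hm h6
      rw [mem_Icc] at hm
      unfold Bad MostlyPrimRoots at h6
      rw [Classical.not_imp] at h6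
      exact ⟨mem_range.2 (by omega), h6.1, h6.2⟩
    refine h5.trans ((Real.rpow_le_rpow_of_exponent_le hN1 ht.le).trans ?_)
    nlinarith
  · have h5 : (((Icc 1 N).filter (Bad F B)).card : ℝ) ≤ x₀ := by
      have h6 : ((Icc 1 N).filter (Bad F B)).card ≤ N :=
        (card_filter_le _ _).trans (by simp)
      exact_mod_cast h6.trans (by omega)
    refine h5.trans ?_
    nlinarith

/-- **Primitive roots for the primes given by continued fractions.** For every `ε > 0` and every `B` there are `C` and a
polynomial-time computable list `F p` of `n ^ C` numbers, `n = size p`, such that, in the sense of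
`AtApproximations ε`, for all primes `p` given by good rational approximations all but a fraction `n ^ (-B)` of the
entries of the list `F p` are primitive roots modulo `p`. -/
theorem result (ε : ℝ) (hε : 0 < ε) (B : ℕ) :
    ∃ (C : ℕ) (F : ℕ → List ℕ), PolyTimeList F ∧ (∀ p : ℕ, (F p).length = p.size ^ C) ∧
      AtApproximations ε (MostlyPrimRoots F B) := by
  obtain ⟨C, F, h1, h2, x₀, h3⟩ := Pool.Agent.Results.MP_18a8a6_lc.AlmostAllPrimes.result ε hε B
  exact ⟨C, F, h1, h2, at_of (B := Bad F B) hε.le (ps_list hε h3) (fun p hp => hp)⟩

end Pool.Agent.Results.MP_18a8a6_lc.GoodApproximations
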