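import Pool.Agent.Results.MP_18a8a6_lc.AlmostAllPrimes
import Pool.Agent.Q327.MF.Gen

/-!
# Primitive roots modulo the large prime factors of the values of polynomials on sparse sets

For every `d`, every `δ > 0` and every `B` one polynomial-time computable list `F p` works for all
polynomials `P` of degree at most `d` in any number `r` of variables with integral coefficients (of
absolute sum at most `H`) and all sets `S_1, …, S_r` of at least `H ^ δ` integers of absolute value at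
most `H`: for all but a fraction `H ^ (-δ / 4)` of the points `z` of `S_1 × ⋯ × S_r`, every prime `p`
which divides `P z ≠ 0` with a cofactor `|P z| / p ≤ H ^ (δ / 4)` has the property that all but a
fraction `(size p) ^ (-B)` of the entries of `F p` are primitive roots modulo `p`.
-/

set_option autoImplicit false

namespace Pool.Agent.Results.MP_18a8a6_lc.PrimeFactorsInFamilies

open Finset MvPolynomial

/-- `F` is computable in polynomial time: some function on bit strings computed by a Turing machine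
(Mathlib's `TM2ComputableInPolyTime`) in polynomially many steps sends the binary digits of `p` to
the code of the list `F p`. -/
def PolyTimeList (F : ℕ → List ℕ) : Prop :=
  ∃ f : List Bool → List Bool, NPC.PolyTime f ∧ ∀ p : ℕ, f (Nat.bits p) = NPC.bits (F p)

/-- `g` is a primitive root modulo `p` -/
def IsPrimRoot (p g : ℕ) : Prop := orderOf (g : ZMod p) = p - 1

open Classical in
/-- all but a fraction `(size p) ^ (-B)` of the entries of the list `F p` are primitive roots modulo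
`p` -/
def MostlyPrimRoots (F : ℕ → List ℕ) (B p : ℕ) : Prop :=
  p.size ^ B * #{i ∈ range (F p).length | ¬ IsPrimRoot p ((F p).getD i 0)} ≤ (F p).length

/-- `P` is a nonconstant polynomial of degree at most `d` whose coefficients have absolute sum at most
`H` -/
def IsPoly {r : ℕ} (d : ℕ) (H : ℝ) (P : MvPolynomial (Fin r) ℤ) : Prop :=
  P.totalDegree ≠ 0 ∧ P.totalDegree ≤ d ∧ (∑ m ∈ P.support, |((P.coeff m : ℤ) : ℝ)|) ≤ H

theorem abs_eval_le {r d : ℕ} (P : MvPolynomial (Fin r) ℤ) (hd : P.totalDegree ≤ d) {H : ℝ}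
    (hH : 1 ≤ H) (hP : (∑ m ∈ P.support, |((P.coeff m : ℤ) : ℝ)|) ≤ H) (z : Fin r → ℤ)
    (hz : ∀ i, |((z i : ℤ) : ℝ)| ≤ H) : |((eval z P : ℤ) : ℝ)| ≤ H ^ (d + 1) := by
  rw [eval_eq']
  push_cast
  calc |∑ m ∈ P.support, ((P.coeff m : ℤ) : ℝ) * ∏ i, ((z i : ℤ) : ℝ) ^ m i|
      ≤ ∑ m ∈ P.support, |((P.coeff m : ℤ) : ℝ) * ∏ i, ((z i : ℤ) : ℝ) ^ m i| :=
        abs_sum_le_sum_abs _ _
    _ ≤ ∑ m ∈ P.support, |((P.coeff m : ℤ) : ℝ)| * H ^ d := by
        apply sum_le_sum
        intro m hm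
        rw [abs_mul, abs_prod]
        apply mul_le_mul_of_nonneg_left _ (abs_nonneg _)
        calc ∏ i, |((z i : ℤ) : ℝ) ^ m i| ≤ ∏ i, H ^ m i := by
              apply prod_le_prod (fun i _ => abs_nonneg _)
              intro i _
              rw [abs_pow]
              exact pow_le_pow_left₀ (abs_nonneg _) (hz i) _
          _ = H ^ (∑ i, m i) := by rw [prod_pow_eq_pow_sum]
          _ ≤ H ^ d := by
              apply pow_le_pow_right₀ hH
              have h1 := le_totalDegree hm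
              rw [Finsupp.sum_fintype _ _ (fun _ => rfl)] at h1
              exact h1.trans hd
    _ = (∑ m ∈ P.support, |((P.coeff m : ℤ) : ℝ)|) * H ^ d := by rw [sum_mul]
    _ ≤ H * H ^ d := mul_le_mul_of_nonneg_right hP (by positivity)
    _ = H ^ (d + 1) := by ring

/-- points of the product where the value is one of finitely many numbers -/
theorem count_values {r d m : ℕ} (P : MvPolynomial (Fin r) ℤ) (h0 : P.totalDegree ≠ 0)
    (hd : P.totalDegree ≤ d) (S : Fin r → Finset ℤ) (hm : ∀ i, m ≤ (S i).card) (J : Finset ℤ)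
    (T : Finset (Fin r → ℤ)) (hT : ∀ z ∈ T, (∀ i, z i ∈ S i) ∧ eval z P ∈ J) :
    m * T.card ≤ J.card * (d * ∏ i, (S i).card) := by
  classical
  have hinj : Function.Injective (fun z : Fin r → ℤ => fun i => ((z i : ℤ) : ℚ)) := by
    intro a b h
    funext i
    have h1 : ((a i : ℤ) : ℚ) = ((b i : ℤ) : ℚ) := congrFun h i
    exact_mod_cast h1
  have h1 := Pool.Agent.Q327.MF.count_gen (K := ℚ) (r := r) (d := d) (m := m) J
    (fun v => map (Int.castRingHom ℚ) (P - C v)) ?_ ?_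
    (fun i => (S i).map ⟨fun n : ℤ => (n : ℚ), Int.cast_injective⟩)
    (fun i => by rw [card_map]; exact hm i) (T.map ⟨_, hinj⟩) ?_ ?_
  · simpa only [card_map] using h1
  · intro v _ h
    have h2 : P - C v = 0 := by
      apply map_injective (Int.castRingHom ℚ) Int.cast_injective
      rw [h, map_zero]
    apply h0
    rw [sub_eq_zero.1 h2, totalDegree_C]
  · intro v _
    refine (Pool.Agent.Q327.MF.map_deg _).trans ((totalDegree_sub _ _).trans ?_)
    rw [totalDegree_C]
    exact max_le hd (Nat.zero_le _)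
  · intro z hz i
    obtain ⟨w, hw, rfl⟩ := mem_map.1 hz
    exact mem_map.2 ⟨w i, (hT w hw).1 i, rfl⟩
  · intro z hz
    obtain ⟨w, hw, rfl⟩ := mem_map.1 hz
    refine ⟨eval w P, (hT w hw).2, ?_⟩
    show eval (fun i => ((w i : ℤ) : ℚ)) (map (Int.castRingHom ℚ) (P - C (eval w P))) = 0
    rw [eval_map]
    have h2 := eval₂_comp (Int.castRingHom ℚ) w (P - C (eval w P))
    have h3 : eval w (P - C (eval w P)) = 0 := by rw [map_sub, eval_C, sub_self]
    rw [h3, map_zero] at h2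
    exact h2.symm

theorem fin_arith {H δ K d j y b t W : ℝ} (hH : 0 < H) (hK : 0 ≤ K) (hd : 0 ≤ d) (hW : 0 ≤ W)
    (hb0 : 0 ≤ b) (hy0 : 0 ≤ y) (hy : y ≤ H ^ (δ / 4)) (hb : b ≤ K * H ^ (δ / 4))
    (hj : j ≤ 2 * (y * b)) (hKd : 2 * K * d ≤ H ^ (δ / 4)) (h : H ^ δ * t ≤ j * (d * W)) :
    t ≤ H ^ (-(δ / 4)) * W := by
  have hp : 0 < H ^ (δ / 4) := Real.rpow_pos_of_pos hH _
  have hq : 0 < H ^ δ := Real.rpow_pos_of_pos hH _
  have h3 : j ≤ 2 * (H ^ (δ / 4) * (K * H ^ (δ / 4))) :=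
    hj.trans (mul_le_mul_of_nonneg_left (mul_le_mul hy hb hb0 hp.le) (by norm_num))
  have hJ2 : j * (d * W) ≤ H ^ (δ / 4) * H ^ (δ / 4) * H ^ (δ / 4) * W := by
    calc j * (d * W) ≤ 2 * (H ^ (δ / 4) * (K * H ^ (δ / 4))) * (d * W) :=
          mul_le_mul_of_nonneg_right h3 (mul_nonneg hd hW)
      _ = (2 * K * d) * (H ^ (δ / 4) * H ^ (δ / 4) * W) := by ring
      _ ≤ H ^ (δ / 4) * (H ^ (δ / 4) * H ^ (δ / 4) * W) :=
          mul_le_mul_of_nonneg_right hKd (mul_nonneg (mul_nonneg hp.le hp.le) hW)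
      _ = _ := by ring
  have h4 : H ^ δ * t ≤ H ^ δ * (H ^ (-(δ / 4)) * W) := by
    refine (h.trans hJ2).trans (le_of_eq ?_)
    rw [← mul_assoc, ← Real.rpow_add hH, ← Real.rpow_add hH, ← Real.rpow_add hH]
    congr 2
    ring
  exact le_of_mul_le_mul_left h4 hq

open Classical in
/-- **Theorem.** For every `d`, `δ > 0` and `B` there are `C` and a polynomial-time computable list
`F p` of `n ^ C` numbers, `n` the number of binary digits of `p`, such that for all large `H`, every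
number `r` of variables, every nonconstant polynomial `P` of degree at most `d` with integral
coefficients of absolute sum at most `H`, and all sets `S i` of at least `H ^ δ` integers of absolute
value at most `H`: for all but at most `H ^ (-δ / 4) ∏ |S i|` of the points `z` of the product of the
`S i`, all but a fraction `(size p) ^ (-B)` of the entries of `F p` are primitive roots modulo `p`,
for EVERY prime `p` which divides `P z ≠ 0` and satisfies `|P z| ≤ H ^ (δ / 4) p`. -/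
theorem result (d : ℕ) (δ : ℝ) (hδ : 0 < δ) (B : ℕ) :
    ∃ (C : ℕ) (F : ℕ → List ℕ), PolyTimeList F ∧ (∀ p : ℕ, (F p).length = p.size ^ C) ∧
      ∃ H₀ : ℝ, ∀ H : ℝ, H₀ ≤ H → ∀ (r : ℕ) (P : MvPolynomial (Fin r) ℤ), IsPoly d H P →
        ∀ S : Fin r → Finset ℤ, (∀ i, H ^ δ ≤ ((S i).card : ℝ)) →
          (∀ i, ∀ s ∈ S i, |((s : ℤ) : ℝ)| ≤ H) →
          (#{z ∈ Fintype.piFinset S | eval z P ≠ 0 ∧ ∃ p : ℕ, p.Prime ∧ (p : ℤ) ∣ eval z P ∧
            |((eval z P : ℤ) : ℝ)| ≤ H ^ (δ / 4) * p ∧ ¬ MostlyPrimRoots F B p} : ℝ) ≤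
            H ^ (-(δ / 4)) * ∏ i, ((S i).card : ℝ) := by
  set ε : ℝ := δ / (4 * (d + 1)) with hε
  have hε0 : 0 < ε := by positivity
  obtain ⟨C, F, hF, hlen, x₀, hx⟩ := AlmostAllPrimes.result ε hε0 B
  refine ⟨C, F, hF, hlen, ?_⟩
  set K : ℝ := x₀ + 2 with hK
  have hK0 : 0 < K := by positivity
  -- few exceptional primes up to any bound
  have hfew : ∀ X : ℕ, 1 ≤ X →
      (#{p ∈ range (X + 1) | p.Prime ∧ ¬ MostlyPrimRoots F B p} : ℝ) ≤ K * (X : ℝ) ^ ε := by
    intro X hX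
    have hX1 : (1 : ℝ) ≤ (X : ℝ) ^ ε := Real.one_le_rpow (by exact_mod_cast hX) hε0.le
    rcases le_or_gt x₀ X with h1 | h1
    · have h2 := hx X h1
      have h3 : (#{p ∈ range (X + 1) | p.Prime ∧ ¬ MostlyPrimRoots F B p} : ℝ) ≤ (X : ℝ) ^ ε := by
        refine le_trans (Nat.cast_le.2 (card_le_card ?_)) h2
        intro p hp
        rw [mem_filter] at hp ⊢
        exact ⟨hp.1, hp.2.1, hp.2.2⟩
      nlinarith
    · have h2 : #{p ∈ range (X + 1) | p.Prime ∧ ¬ MostlyPrimRoots F B p} ≤ X + 1 :=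
        (card_filter_le _ _).trans (by rw [card_range])
      have h3 : (#{p ∈ range (X + 1) | p.Prime ∧ ¬ MostlyPrimRoots F B p} : ℝ) ≤ (x₀ : ℝ) + 1 := by
        have h4 : X + 1 ≤ x₀ + 1 := by omega
        exact_mod_cast h2.trans h4
      nlinarith
  refine ⟨max 1 ((2 * K * d) ^ (4 / δ)), fun H hH r P hP S hS hSH => ?_⟩
  obtain ⟨hP0, hPd, hPH⟩ := hP
  have hH1 : (1 : ℝ) ≤ H := (le_max_left _ _).trans hH
  have hH0 : 0 < H := by linarith
  have hd0 : 0 < d := (Nat.pos_of_ne_zero hP0).trans_le hPd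
  have hHδ : 2 * K * d ≤ H ^ (δ / 4) := by
    have h1 : (2 * K * d) ^ (4 / δ) ≤ H := (le_max_right _ _).trans hH
    have h2 := Real.rpow_le_rpow (by positivity) h1 (by positivity : (0 : ℝ) ≤ δ / 4)
    rw [← Real.rpow_mul (by positivity)] at h2
    have h3 : 4 / δ * (δ / 4) = 1 := by field_simp
    rwa [h3, Real.rpow_one] at h2
  set Y : ℕ := ⌊H ^ (δ / 4)⌋₊ with hY
  set X : ℕ := ⌊H ^ (d + 1)⌋₊ with hX
  have hX1 : 1 ≤ X := by
    rw [hX, Nat.one_le_floor_iff]
    exact one_le_pow₀ hH1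
  set Bad : Finset ℕ := {p ∈ range (X + 1) | p.Prime ∧ ¬ MostlyPrimRoots F B p} with hBad
  have hBadc : (Bad.card : ℝ) ≤ K * H ^ (δ / 4) := by
    refine (hfew X hX1).trans ?_
    apply mul_le_mul_of_nonneg_left _ hK0.le
    calc (X : ℝ) ^ ε ≤ (H ^ (d + 1)) ^ ε :=
          Real.rpow_le_rpow (by positivity) (Nat.floor_le (by positivity)) hε0.le
      _ = H ^ (δ / 4) := by
          rw [← Real.rpow_natCast H (d + 1), ← Real.rpow_mul hH0.le]
          congr 1
          rw [hε]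
          push_cast
          field_simp
  -- the exceptional values
  set J : Finset ℤ := ((Icc 1 Y ×ˢ Bad).image fun q => ((q.1 * q.2 : ℕ) : ℤ)) ∪
    ((Icc 1 Y ×ˢ Bad).image fun q => -((q.1 * q.2 : ℕ) : ℤ)) with hJ
  have hJc : (J.card : ℝ) ≤ 2 * (Y * Bad.card) := by
    have h1 : J.card ≤ (Icc 1 Y ×ˢ Bad).card + (Icc 1 Y ×ˢ Bad).card :=
      (card_union_le _ _).trans (Nat.add_le_add card_image_le card_image_le)
    rw [card_product, Nat.card_Icc, Nat.add_sub_cancel] at h1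
    have h2 : (J.card : ℝ) ≤ ((Y * Bad.card + Y * Bad.card : ℕ) : ℝ) := by exact_mod_cast h1
    push_cast at h2
    linarith
  set T : Finset (Fin r → ℤ) := {z ∈ Fintype.piFinset S | eval z P ≠ 0 ∧ ∃ p : ℕ, p.Prime ∧
    (p : ℤ) ∣ eval z P ∧ |((eval z P : ℤ) : ℝ)| ≤ H ^ (δ / 4) * p ∧ ¬ MostlyPrimRoots F B p} with hT
  have hmem : ∀ z ∈ T, (∀ i, z i ∈ S i) ∧ eval z P ∈ J := by
    intro z hz
    rw [hT, mem_filter, Fintype.mem_piFinset] at hz
    obtain ⟨hzS, hv, p, hp, hpv, hle, hbad⟩ := hz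
    refine ⟨hzS, ?_⟩
    set v : ℤ := eval z P with hvdef
    have habs : |((v : ℤ) : ℝ)| = (v.natAbs : ℝ) := by
      rw [← Int.cast_abs, Int.abs_eq_natAbs]
      simp
    have hp0 : (0 : ℝ) < p := by exact_mod_cast hp.pos
    obtain ⟨c, hc⟩ := Int.natCast_dvd.1 hpv
    have hcpos : 1 ≤ c := by
      rcases Nat.eq_zero_or_pos c with h | h
      · exfalso
        rw [h, mul_zero] at hc
        exact hv (Int.natAbs_eq_zero.1 hc)
      · exact h
    have hcY : c ≤ Y := by
      rw [hY]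
      apply Nat.le_floor
      rw [habs, hc] at hle
      push_cast at hle
      rw [mul_comm] at hle
      exact le_of_mul_le_mul_right hle hp0
    have hvX : v.natAbs ≤ X := by
      rw [hX]
      apply Nat.le_floor
      rw [← habs]
      exact abs_eval_le P hPd hH1 hPH z fun i => hSH i _ (hzS i)
    have hpX : p ≤ X := by
      refine le_trans ?_ hvX
      rw [hc]
      exact Nat.le_mul_of_pos_right _ hcpos
    have hpBad : p ∈ Bad := by
      rw [hBad, mem_filter, mem_range]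
      exact ⟨by omega, hp, hbad⟩
    have hq : (c, p) ∈ Icc 1 Y ×ˢ Bad := mem_product.2 ⟨mem_Icc.2 ⟨hcpos, hcY⟩, hpBad⟩
    rw [hJ, mem_union]
    rcases Int.natAbs_eq v with h | h
    · left
      refine mem_image.2 ⟨(c, p), hq, ?_⟩
      rw [h, hc, mul_comm c p]
    · right
      refine mem_image.2 ⟨(c, p), hq, ?_⟩
      rw [h, hc, mul_comm c p]
  have hcount := count_values P hP0 hPd S (m := ⌈H ^ δ⌉₊) (fun i => Nat.ceil_le.2 (hS i)) J T hmem
  have h1 : H ^ δ * (T.card : ℝ) ≤ (J.card : ℝ) * (d * ∏ i, ((S i).card : ℝ)) := by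
    have h2 : ((⌈H ^ δ⌉₊ * T.card : ℕ) : ℝ) ≤ ((J.card * (d * ∏ i, (S i).card) : ℕ) : ℝ) := by
      exact_mod_cast hcount
    push_cast at h2
    refine le_trans ?_ h2
    exact mul_le_mul_of_nonneg_right (Nat.le_ceil _) (Nat.cast_nonneg _)
  exact fin_arith hH0 hK0.le (Nat.cast_nonneg d) (prod_nonneg fun i _ => Nat.cast_nonneg _)
    (Nat.cast_nonneg _) (Nat.cast_nonneg _) (Nat.floor_le (Real.rpow_nonneg hH0.le _)) hBadc hJc
    hHδ h1

end Pool.Agent.Results.MP_18a8a6_lc.PrimeFactorsInFamilies
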